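import Mathlib

set_option autoImplicit false

namespace Pool.Agent.Work.MP_e166ae_gt

open Real Filter Topology

/-- one dimensional term -/
noncomputable def g (α a : ℝ) (n : ℤ) (t : ℝ) : ℝ := Real.exp (-(π * α * (n * a + t) ^ 2))

noncomputable def g' (α a : ℝ) (n : ℤ) (t : ℝ) : ℝ :=
  -(2 * π * α * (n * a + t)) * Real.exp (-(π * α * (n * a + t) ^ 2))

noncomputable def th (α a t : ℝ) : ℝ := ∑' n : ℤ, g α a n t
noncomputable def th' (α a t : ℝ) : ℝ := ∑' n : ℤ, g' α a n t

lemma hasDerivAt_g (α a : ℝ) (n : ℤ) (t : ℝ) : HasDerivAt (g α a n) (g' α a n t) t := by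
  unfold g g'
  have h1 : HasDerivAt (fun t : ℝ => -(π * α * (n * a + t) ^ 2)) (-(2 * π * α * (n * a + t))) t := by
    have := (((hasDerivAt_id t).const_add ((n : ℝ) * a)).pow 2).const_mul (π * α)
    have h2 := this.neg
    refine h2.congr_deriv ?_
    simp
    ring
  have := h1.exp
  refine this.congr_deriv ?_
  ring

lemma summable_gauss {c : ℝ} (hc : 0 < c) : Summable fun n : ℤ => Real.exp (-(c * (n : ℝ) ^ 2)) := by
  have h1 : Summable fun n : ℕ => Real.exp (-(c * (n : ℝ) ^ 2)) := by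
    have h0 : Summable fun n : ℕ => Real.exp (-c) ^ n := by
      apply summable_geometric_of_lt_one (Real.exp_pos _).le
      rw [Real.exp_lt_one_iff]; linarith
    refine Summable.of_nonneg_of_le (fun n => (Real.exp_pos _).le) (fun n => ?_) h0
    rw [← Real.exp_nat_mul]
    apply Real.exp_le_exp.mpr
    have : (n : ℝ) ≤ (n : ℝ) ^ 2 := by
      rcases Nat.eq_zero_or_pos n with h | h
      · simp [h]
      · have : (1 : ℝ) ≤ n := by exact_mod_cast h
        nlinarith
    nlinarith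
  refine Summable.of_nat_of_neg (by simpa using h1) (by simpa using h1)

/-- the uniform bound -/
noncomputable def bd (α B a₀ : ℝ) (n : ℤ) : ℝ :=
  (2 * π * α * (1 + 1 / (π * α)) * Real.exp (π * α * B ^ 2 / 2) + Real.exp (π * α * B ^ 2 / 2))
    * Real.exp (-((π * α * a₀ ^ 2 / 4) * (n : ℝ) ^ 2))

lemma summable_bd {α B a₀ : ℝ} (hα : 0 < α) (ha : 0 < a₀) : Summable (bd α B a₀) := by
  unfold bd
  exact (summable_gauss (by positivity)).mul_left _

lemma sq_lower {α B a₀ a t : ℝ} (hα : 0 < α) (ha : 0 < a₀) (haa : a₀ ≤ a) (ht : |t| ≤ B) (n : ℤ) :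
    Real.exp (-(π * α * (n * a + t) ^ 2) / 2) ≤
      Real.exp (π * α * B ^ 2 / 2) * Real.exp (-((π * α * a₀ ^ 2 / 4) * (n : ℝ) ^ 2)) := by
  rw [← Real.exp_add]
  apply Real.exp_le_exp.mpr
  have h1 : (n * a) ^ 2 / 2 - t ^ 2 ≤ (n * a + t) ^ 2 := by nlinarith [sq_nonneg (n * a + 2 * t)]
  have h2 : t ^ 2 ≤ B ^ 2 := sq_le_sq' (by linarith [abs_le.mp ht]) (abs_le.mp ht).2
  have h3 : a₀ ^ 2 ≤ a ^ 2 := by nlinarith
  have h4 : a₀ ^ 2 * (n : ℝ) ^ 2 ≤ a ^ 2 * (n : ℝ) ^ 2 := mul_le_mul_of_nonneg_right h3 (sq_nonneg _)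
  have h5 : 0 < π * α := by positivity
  have h6 : (n * a + t) ^ 2 ≥ a₀ ^ 2 * (n : ℝ) ^ 2 / 2 - B ^ 2 := by nlinarith
  nlinarith

lemma g_le {α B a₀ a t : ℝ} (hα : 0 < α) (ha : 0 < a₀) (haa : a₀ ≤ a) (ht : |t| ≤ B) (n : ℤ) :
    ‖g α a n t‖ ≤ bd α B a₀ n := by
  have h := sq_lower hα ha haa ht n
  unfold g bd
  rw [Real.norm_eq_abs, abs_of_pos (Real.exp_pos _)]
  have h1 : Real.exp (-(π * α * (n * a + t) ^ 2)) ≤ Real.exp (-(π * α * (n * a + t) ^ 2) / 2) := by
    apply Real.exp_le_exp.mpr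
    have : 0 ≤ π * α * (n * a + t) ^ 2 := by positivity
    linarith
  refine h1.trans (h.trans ?_)
  apply mul_le_mul_of_nonneg_right _ (Real.exp_pos _).le
  have : 0 ≤ 2 * π * α * (1 + 1 / (π * α)) * Real.exp (π * α * B ^ 2 / 2) := by positivity
  linarith

lemma g'_le {α B a₀ a t : ℝ} (hα : 0 < α) (ha : 0 < a₀) (haa : a₀ ≤ a) (ht : |t| ≤ B) (n : ℤ) :
    ‖g' α a n t‖ ≤ bd α B a₀ n := by
  have h := sq_lower hα ha haa ht n
  unfold g' bd
  set x : ℝ := n * a + t with hx
  have hpa : 0 < π * α := by positivity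
  -- |x| exp(-πα x²/2) ≤ 1 + 1/(πα)
  have key : |x| * Real.exp (-(π * α * x ^ 2) / 2) ≤ 1 + 1 / (π * α) := by
    have e1 : |x| ≤ 1 + x ^ 2 / 2 := by nlinarith [sq_abs x, abs_nonneg x, sq_nonneg (|x| - 1)]
    have e2 : Real.exp (-(π * α * x ^ 2) / 2) ≤ 1 := by
      apply Real.exp_le_one_iff.mpr
      have : 0 ≤ π * α * x ^ 2 := by positivity
      linarith
    have e3 : (π * α * x ^ 2 / 2) * Real.exp (-(π * α * x ^ 2) / 2) ≤ 1 := by
      have := Real.add_one_le_exp (π * α * x ^ 2 / 2)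
      have h7 : Real.exp (-(π * α * x ^ 2) / 2) = (Real.exp (π * α * x ^ 2 / 2))⁻¹ := by
        rw [← Real.exp_neg]; congr 1; ring
      rw [h7, ← div_eq_mul_inv, div_le_one (Real.exp_pos _)]
      linarith
    calc |x| * Real.exp (-(π * α * x ^ 2) / 2) ≤ (1 + x ^ 2 / 2) * Real.exp (-(π * α * x ^ 2) / 2) :=
          mul_le_mul_of_nonneg_right e1 (Real.exp_pos _).le
      _ = Real.exp (-(π * α * x ^ 2) / 2)
            + (1 / (π * α)) * ((π * α * x ^ 2 / 2) * Real.exp (-(π * α * x ^ 2) / 2)) := by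
          field_simp
      _ ≤ 1 + (1 / (π * α)) * 1 := by
          apply add_le_add e2
          exact mul_le_mul_of_nonneg_left e3 (by positivity)
      _ = 1 + 1 / (π * α) := by ring
  rw [Real.norm_eq_abs, abs_mul, abs_neg, abs_mul, abs_of_pos (by positivity : 0 < 2 * π * α),
    abs_of_pos (Real.exp_pos _)]
  have hsplit : Real.exp (-(π * α * x ^ 2)) =
      Real.exp (-(π * α * x ^ 2) / 2) * Real.exp (-(π * α * x ^ 2) / 2) := by
    rw [← Real.exp_add]; congr 1; ring
  rw [hsplit]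
  set E : ℝ := Real.exp (-(π * α * x ^ 2) / 2) with hE
  have hEpos : 0 < E := Real.exp_pos _
  calc 2 * π * α * |x| * (E * E) = 2 * π * α * (|x| * E) * E := by ring
    _ ≤ 2 * π * α * (1 + 1 / (π * α)) * E := by
        apply mul_le_mul_of_nonneg_right _ hEpos.le
        exact mul_le_mul_of_nonneg_left key (by positivity)
    _ ≤ 2 * π * α * (1 + 1 / (π * α)) *
          (Real.exp (π * α * B ^ 2 / 2) * Real.exp (-((π * α * a₀ ^ 2 / 4) * (n : ℝ) ^ 2))) :=
        mul_le_mul_of_nonneg_left h (by positivity)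
    _ ≤ _ := by
        have : 0 ≤ Real.exp (π * α * B ^ 2 / 2) * Real.exp (-((π * α * a₀ ^ 2 / 4) * (n : ℝ) ^ 2)) := by
          positivity
        nlinarith

lemma summable_g {α a : ℝ} (hα : 0 < α) (ha : 0 < a) (t : ℝ) : Summable fun n : ℤ => g α a n t :=
  Summable.of_norm_bounded (summable_bd (B := |t|) hα ha) (fun n => g_le hα ha le_rfl le_rfl n)

lemma summable_g' {α a : ℝ} (hα : 0 < α) (ha : 0 < a) (t : ℝ) : Summable fun n : ℤ => g' α a n t :=
  Summable.of_norm_bounded (summable_bd (B := |t|) hα ha) (fun n => g'_le hα ha le_rfl le_rfl n)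

lemma hasDerivAt_th {α a : ℝ} (hα : 0 < α) (ha : 0 < a) (t : ℝ) :
    HasDerivAt (th α a) (th' α a t) t := by
  unfold th th'
  refine hasDerivAt_tsum_of_isPreconnected (t := Set.Ioo (-(|t| + 1)) (|t| + 1))
    (u := bd α (|t| + 1) a) (summable_bd hα ha) isOpen_Ioo isPreconnected_Ioo
    (fun n y _ => hasDerivAt_g α a n y) (fun n y hy => g'_le hα ha le_rfl (abs_le.mpr ⟨hy.1.le, hy.2.le⟩) n)
    (y₀ := t) ?_ (summable_g hα ha t) ?_
  · constructor <;> [linarith [neg_abs_le t]; linarith [le_abs_self t]]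
  · constructor <;> [linarith [neg_abs_le t]; linarith [le_abs_self t]]

lemma continuous_th' {α a : ℝ} (hα : 0 < α) (ha : 0 < a) : Continuous (th' α a) := by
  rw [continuous_iff_continuousAt]
  intro t
  have : ContinuousOn (th' α a) (Set.Ioo (-(|t| + 1)) (|t| + 1)) := by
    unfold th'
    refine continuousOn_tsum (u := bd α (|t| + 1) a) (fun n => ?_) (summable_bd hα ha)
      (fun n y hy => g'_le hα ha le_rfl (abs_le.mpr ⟨hy.1.le, hy.2.le⟩) n)
    unfold g'
    fun_prop
  exact this.continuousAt (Ioo_mem_nhds (by linarith [neg_abs_le t]) (by linarith [le_abs_self t]))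

lemma th_pos {α a : ℝ} (hα : 0 < α) (ha : 0 < a) (t : ℝ) : 0 < th α a t :=
  (summable_g hα ha t).tsum_pos (fun _ => (Real.exp_pos _).le) 0 (Real.exp_pos _)

lemma continuous_th {α a : ℝ} (hα : 0 < α) (ha : 0 < a) : Continuous (th α a) :=
  continuous_iff_continuousAt.mpr fun t => (hasDerivAt_th hα ha t).continuousAt

/-- square root of theta -/
noncomputable def s (α a t : ℝ) : ℝ := Real.sqrt (th α a t)

lemma s_pos {α a : ℝ} (hα : 0 < α) (ha : 0 < a) (t : ℝ) : 0 < s α a t :=
  Real.sqrt_pos.mpr (th_pos hα ha t)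

lemma hasDerivAt_s {α a : ℝ} (hα : 0 < α) (ha : 0 < a) (t : ℝ) :
    HasDerivAt (s α a) (th' α a t / (2 * s α a t)) t :=
  (hasDerivAt_th hα ha t).sqrt (th_pos hα ha t).ne'

lemma contDiff_s {α a : ℝ} (hα : 0 < α) (ha : 0 < a) : ContDiff ℝ 1 (s α a) := by
  rw [contDiff_one_iff_deriv]
  refine ⟨fun t => (hasDerivAt_s hα ha t).differentiableAt, ?_⟩
  have : deriv (s α a) = fun t => th' α a t / (2 * s α a t) := by
    funext t; exact (hasDerivAt_s hα ha t).deriv
  rw [this]
  refine (continuous_th' hα ha).div ?_ (fun t => (mul_pos two_pos (s_pos hα ha t)).ne')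
  exact continuous_const.mul (Real.continuous_sqrt.comp (continuous_th hα ha))

/-- lower bound of th when a ≤ 1/N: many terms -/
lemma th_lower {α : ℝ} (hα : 0 < α) (N : ℕ) (hN : 0 < N) (t : ℝ) :
    (N : ℝ) * Real.exp (-(π * α)) ≤ th α (1 / N) t := by
  have hN' : (0 : ℝ) < N := by exact_mod_cast hN
  have ha : (0 : ℝ) < 1 / N := by positivity
  -- integers n with n/N + t ∈ [0,1)
  set m : ℤ := ⌈-(N * t)⌉ with hm
  have h1 : -(N * t) ≤ m := Int.le_ceil _
  have h2 : (m : ℝ) < -(N * t) + 1 := Int.ceil_lt_add_one _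
  let S : Finset ℤ := (Finset.range N).image (fun k : ℕ => m + k)
  have hcard : S.card = N := by
    rw [Finset.card_image_of_injective, Finset.card_range]
    intro a b h; simpa using h
  have hle : ∀ n ∈ S, Real.exp (-(π * α)) ≤ g α (1 / N) n t := by
    intro n hn
    obtain ⟨k, hk, rfl⟩ := Finset.mem_image.mp hn
    have hk' : (k : ℝ) ≤ N - 1 := by
      have : k + 1 ≤ N := Finset.mem_range.mp hk
      have : ((k + 1 : ℕ) : ℝ) ≤ N := by exact_mod_cast this
      push_cast at this; linarith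
    have hk0 : (0 : ℝ) ≤ k := Nat.cast_nonneg _
    unfold g
    apply Real.exp_le_exp.mpr
    have e1 : 0 ≤ (((m + k : ℤ) : ℝ) * (1 / N) + t) := by
      push_cast
      have : ((m : ℝ) + k) * (1 / N) + t = (m + k + N * t) / N := by field_simp
      rw [this]; apply div_nonneg _ hN'.le; linarith
    have e2 : (((m + k : ℤ) : ℝ) * (1 / N) + t) ≤ 1 := by
      push_cast
      have : ((m : ℝ) + k) * (1 / N) + t = (m + k + N * t) / N := by field_simp
      rw [this, div_le_one hN']; linarith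
    have e3 : (((m + k : ℤ) : ℝ) * (1 / N) + t) ^ 2 ≤ 1 := by nlinarith
    have : 0 < π * α := by positivity
    nlinarith
  calc (N : ℝ) * Real.exp (-(π * α)) = ∑ n ∈ S, Real.exp (-(π * α)) := by
        rw [Finset.sum_const, hcard, nsmul_eq_mul]
    _ ≤ ∑ n ∈ S, g α (1 / N) n t := Finset.sum_le_sum hle
    _ ≤ th α (1 / N) t := (summable_g hα ha t).sum_le_tsum S (fun n _ => (Real.exp_pos _).le)

lemma tendsto_g {α : ℝ} (hα : 0 < α) (n : ℤ) (hn : n ≠ 0) (t : ℝ) :
    Tendsto (fun N : ℕ => g α N n t) atTop (𝓝 0) := by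
  unfold g
  have h : Tendsto (fun N : ℕ => π * α * ((n : ℝ) * N + t) ^ 2) atTop atTop := by
    apply Tendsto.const_mul_atTop (by positivity)
    have h1 : Tendsto (fun N : ℕ => |(n : ℝ) * N + t|) atTop atTop := by
      have hn' : 0 < |(n : ℝ)| := abs_pos.mpr (by exact_mod_cast hn)
      have h2 : Tendsto (fun N : ℕ => |(n : ℝ)| * N - |t|) atTop atTop :=
        tendsto_atTop_add_const_right _ _ (tendsto_natCast_atTop_atTop.const_mul_atTop hn')
      refine tendsto_atTop_mono (fun N => ?_) h2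
      have := abs_sub_abs_le_abs_sub ((n : ℝ) * N) (-t)
      rw [abs_neg, sub_neg_eq_add, abs_mul, abs_of_nonneg (Nat.cast_nonneg N : (0:ℝ) ≤ N)] at this
      exact this
    have h3 := (tendsto_pow_atTop (n := 2) two_ne_zero).comp h1
    refine h3.congr (fun N => ?_)
    simp [sq_abs]
  exact Real.tendsto_exp_neg_atTop_nhds_zero.comp h

lemma tendsto_g' {α : ℝ} (hα : 0 < α) (n : ℤ) (hn : n ≠ 0) (t : ℝ) :
    Tendsto (fun N : ℕ => g' α N n t) atTop (𝓝 0) := by
  have h : Tendsto (fun N : ℕ => |(n : ℝ) * N + t|) atTop atTop := by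
    have hn' : 0 < |(n : ℝ)| := abs_pos.mpr (by exact_mod_cast hn)
    have h2 : Tendsto (fun N : ℕ => |(n : ℝ)| * N - |t|) atTop atTop :=
      tendsto_atTop_add_const_right _ _ (tendsto_natCast_atTop_atTop.const_mul_atTop hn')
    refine tendsto_atTop_mono (fun N => ?_) h2
    have := abs_sub_abs_le_abs_sub ((n : ℝ) * N) (-t)
    rw [abs_neg, sub_neg_eq_add, abs_mul, abs_of_nonneg (Nat.cast_nonneg N : (0:ℝ) ≤ N)] at this
    exact this
  have h4 : Tendsto (fun x : ℝ => x * Real.exp (-(π * α * x ^ 2))) atTop (𝓝 0) := by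
    have hp : 0 < π * α := by positivity
    have h5 : Tendsto (fun x : ℝ => (x ^ (2:ℕ)) / Real.exp (π * α * x)) atTop (𝓝 0) := by
      have h6 := (Real.tendsto_pow_mul_exp_neg_atTop_nhds_zero 2).comp
        (Filter.Tendsto.const_mul_atTop hp tendsto_id)
      have h7 := h6.const_mul (1 / (π * α) ^ 2)
      rw [mul_zero] at h7
      refine h7.congr (fun x => ?_)
      simp only [Function.comp_apply, id_eq]
      rw [Real.exp_neg]
      field_simp
    refine squeeze_zero' ?_ ?_ h5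
    · filter_upwards [eventually_ge_atTop 0] with x hx
      positivity
    · filter_upwards [eventually_ge_atTop 1] with x hx
      rw [div_eq_mul_inv, ← Real.exp_neg]
      apply mul_le_mul
      · nlinarith
      · apply Real.exp_le_exp.mpr
        have h9 : x ≤ x ^ 2 := by nlinarith
        have h10 := mul_le_mul_of_nonneg_left h9 hp.le
        linarith
      · exact (Real.exp_pos _).le
      · positivity
  have h8 := (h4.comp h).const_mul (2 * π * α)
  rw [mul_zero] at h8
  rw [tendsto_zero_iff_abs_tendsto_zero]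
  refine h8.congr (fun N => ?_)
  have h2 : |(2 : ℝ)| = 2 := abs_of_pos two_pos
  simp only [Function.comp_apply, g', sq_abs, abs_mul, abs_neg, h2]
  rw [abs_of_pos Real.pi_pos, abs_of_pos hα, abs_of_pos (Real.exp_pos _)]
  ring

lemma tendsto_th {α : ℝ} (hα : 0 < α) (t : ℝ) :
    Tendsto (fun N : ℕ => th α N t) atTop (𝓝 (Real.exp (-(π * α * t ^ 2)))) := by
  have h : Tendsto (fun N : ℕ => ∑' n : ℤ, g α N n t) atTop
      (𝓝 (∑' n : ℤ, if n = 0 then Real.exp (-(π * α * t ^ 2)) else 0)) := by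
    refine tendsto_tsum_of_dominated_convergence (bound := bd α |t| 1) (summable_bd hα one_pos)
      (fun n => ?_) ?_
    · by_cases hn : n = 0
      · subst hn
        simp only [if_true]
        refine tendsto_const_nhds.congr (fun N => ?_)
        simp [g]
      · simp only [if_neg hn]
        exact tendsto_g hα n hn t
    · filter_upwards [eventually_ge_atTop 1] with N hN n
      exact g_le hα one_pos (by exact_mod_cast hN) le_rfl n
  rw [tsum_ite_eq] at h
  exact h

lemma tendsto_th' {α : ℝ} (hα : 0 < α) (t : ℝ) :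
    Tendsto (fun N : ℕ => th' α N t) atTop (𝓝 (-(2 * π * α * t) * Real.exp (-(π * α * t ^ 2)))) := by
  have h : Tendsto (fun N : ℕ => ∑' n : ℤ, g' α N n t) atTop
      (𝓝 (∑' n : ℤ, if n = 0 then -(2 * π * α * t) * Real.exp (-(π * α * t ^ 2)) else 0)) := by
    refine tendsto_tsum_of_dominated_convergence (bound := bd α |t| 1) (summable_bd hα one_pos)
      (fun n => ?_) ?_
    · by_cases hn : n = 0
      · subst hn
        simp only [if_true]
        refine tendsto_const_nhds.congr (fun N => ?_)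
        simp [g']
      · simp only [if_neg hn]
        exact tendsto_g' hα n hn t
    · filter_upwards [eventually_ge_atTop 1] with N hN n
      exact g'_le hα one_pos (by exact_mod_cast hN) le_rfl n
  rw [tsum_ite_eq] at h
  exact h

lemma tendsto_ds {α : ℝ} (hα : 0 < α) (t : ℝ) :
    Tendsto (fun N : ℕ => deriv (s α N) t) atTop
      (𝓝 (-(2 * π * α * t) * Real.exp (-(π * α * t ^ 2)) / (2 * Real.sqrt (Real.exp (-(π * α * t ^ 2)))))) := by
  have h1 : Tendsto (fun N : ℕ => th' α N t / (2 * Real.sqrt (th α N t))) atTop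
      (𝓝 (-(2 * π * α * t) * Real.exp (-(π * α * t ^ 2)) / (2 * Real.sqrt (Real.exp (-(π * α * t ^ 2)))))) := by
    refine (tendsto_th' hα t).div (((tendsto_th hα t).sqrt).const_mul 2) ?_
    have := Real.sqrt_pos.mpr (Real.exp_pos (-(π * α * t ^ 2)))
    positivity
  refine h1.congr' ?_
  filter_upwards [eventually_ge_atTop 1] with N hN
  have hN' : (0 : ℝ) < N := by exact_mod_cast hN
  rw [(hasDerivAt_s hα hN' t).deriv]
  rfl

end Pool.Agent.Work.MP_e166ae_gt
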